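import Pool.Agent.X112.HP.Stm

/-! Project HP (MP_9c2350_lc): part FOR. -/

set_option autoImplicit false

namespace Pool.Agent.X332.HP

open Finset Pool.Agent.X112.HP

theorem sum_cons {β M : Type*} [Fintype β] [AddCommMonoid M] (l : ℕ) (f : (Fin (l + 1) → β) → M) :
    ∑ u, f u = ∑ o, ∑ u : Fin l → β, f (Fin.cons o u) := by
  rw [← (Fin.consEquiv fun _ => β).sum_comp, Fintype.sum_prod_type]
  rfl

section
variable {n m : ℕ} (A : Fin m → Matrix (Fin n) (Fin n) ℕ)

theorem sum_B : ∑ o : Option (Fin m), o.elim 1 A = 1 + ∑ k, A k := by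
  rw [Fintype.sum_option]
  rfl

theorem prod_cons (l : ℕ) (o : Option (Fin m)) (u : Fin l → Option (Fin m)) :
    (List.ofFn fun t => ((Fin.cons o u : Fin (l + 1) → Option (Fin m)) t).elim 1 A).prod =
      o.elim 1 A * (List.ofFn fun t => (u t).elim 1 A).prod := by
  rw [List.ofFn_succ, List.prod_cons]
  rfl

theorem W (l : ℕ) : ∑ u : Fin l → Option (Fin m), (List.ofFn fun t => (u t).elim 1 A).prod =
    (1 + ∑ k, A k) ^ l := by
  induction l with
  | zero => simp
  | succ l ih =>
    rw [sum_cons, pow_succ', ← ih, ← sum_B, Finset.sum_mul]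
    refine Finset.sum_congr rfl fun o _ => ?_
    rw [Finset.mul_sum]
    exact Finset.sum_congr rfl fun u _ => prod_cons A l o u

theorem card_cons (l : ℕ) (k : Fin m) (o : Option (Fin m)) (u : Fin l → Option (Fin m)) :
    (univ.filter (fun t => (Fin.cons o u : Fin (l + 1) → Option (Fin m)) t = some k)).card =
      (if o = some k then 1 else 0) + (univ.filter (fun t => u t = some k)).card := by
  rw [Finset.card_filter, Finset.card_filter, Fin.sum_univ_succ]
  rfl
end

theorem t_FOR : S_FOR := by
  intro n m l A k
  induction l with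
  | zero => simp
  | succ l ih =>
    rw [sum_cons]
    have h1 : ∀ o : Option (Fin m), (∑ u : Fin l → Option (Fin m),
        (univ.filter (fun t => (Fin.cons o u : Fin (l + 1) → Option (Fin m)) t = some k)).card •
          (List.ofFn fun t => ((Fin.cons o u : Fin (l + 1) → Option (Fin m)) t).elim 1 A).prod) =
        (if o = some k then A k * (1 + ∑ k, A k) ^ l else 0) +
          o.elim 1 A * ∑ t ∈ range l, (1 + ∑ k, A k) ^ t * A k * (1 + ∑ k, A k) ^ (l - 1 - t) := by
      intro o
      rw [← ih, Finset.mul_sum]
      have h2 : (if o = some k then A k * (1 + ∑ k, A k) ^ l else 0) =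
          ∑ u : Fin l → Option (Fin m), (if o = some k then 1 else 0) •
            (o.elim 1 A * (List.ofFn fun t => (u t).elim 1 A).prod) := by
        by_cases ho : o = some k
        · subst ho
          simp only [if_true, one_smul]
          rw [← Finset.mul_sum, W]
          rfl
        · simp [ho]
      rw [h2, ← Finset.sum_add_distrib]
      refine Finset.sum_congr rfl fun u _ => ?_
      rw [prod_cons, card_cons, add_smul, mul_smul_comm]
    rw [Finset.sum_congr rfl fun o _ => h1 o, Finset.sum_add_distrib, ← Finset.sum_mul, sum_B,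
      Finset.sum_ite_eq' univ (some k), if_pos (Finset.mem_univ _), Finset.sum_range_succ', add_comm]
    congr 1
    · rw [Finset.mul_sum]
      refine Finset.sum_congr rfl fun t ht => ?_
      have e : l + 1 - 1 - (t + 1) = l - 1 - t := by omega
      rw [e, pow_succ']
      simp only [mul_assoc]
    · simp

end Pool.Agent.X332.HP
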